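import Pool.Agent.H41.Lib.H326R2.Pi.Stmts
/-! T16 (helper930): the good primes. -/

set_option autoImplicit false
set_option linter.constructorNameAsVariable false

namespace Pool.Agent.H930R2.Pi.T16

open Pool.Agent.H326R2.Pi

theorem p_Om : S_Om := by
  intro n p hn hp
  unfold Om at hp
  rw [Finset.mem_biUnion] at hp
  obtain ⟨uv, huv, hp⟩ := hp
  unfold Pset at hp
  rw [Finset.mem_filter, Finset.mem_range] at hp
  obtain ⟨hp4, hpp, h1, h2⟩ := hp
  have hp2 := hpp.two_le
  have hv : uv.2 ≤ 6045 ∧ ∃ A B D a b δ : ℕ, 3 * n = p * A + a ∧ 5 * n = p * B + b ∧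
      4 * n + δ = p * D ∧ Odd D ∧ a + b + δ < p := by
    unfold Lf at huv
    rw [Finset.mem_union, Finset.mem_image, Finset.mem_image] at huv
    rcases huv with ⟨j, hj, rfl⟩ | ⟨j, hj, rfl⟩
    · rw [Finset.mem_Icc] at hj
      refine ⟨by simp only; omega, 3 * j, 5 * j + 1, 4 * j + 1, 3 * n - p * (3 * j),
        5 * n - p * (5 * j + 1), p * (4 * j + 1) - 4 * n, ?_⟩
      simp only at h1 h2
      obtain ⟨q, hq⟩ : ∃ q, q = j * p := ⟨_, rfl⟩
      have e1 : (60 * j + 12) * p = 60 * q + 12 * p := by rw [hq]; ring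
      have e2 : (60 * j + 15) * p = 60 * q + 15 * p := by rw [hq]; ring
      have e3 : p * (3 * j) = 3 * q := by rw [hq]; ring
      have e4 : p * (5 * j + 1) = 5 * q + p := by rw [hq]; ring
      have e5 : p * (4 * j + 1) = 4 * q + p := by rw [hq]; ring
      rw [e1] at h1
      rw [e2] at h2
      rw [e3, e4, e5]
      refine ⟨by omega, by omega, by omega, ⟨2 * j, by omega⟩, by omega⟩
    · rw [Finset.mem_range] at hj
      refine ⟨by simp only; omega, 3 * j + 2, 5 * j + 3, 4 * j + 3, 3 * n - p * (3 * j + 2),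
        5 * n - p * (5 * j + 3), p * (4 * j + 3) - 4 * n, ?_⟩
      simp only at h1 h2
      obtain ⟨q, hq⟩ : ∃ q, q = j * p := ⟨_, rfl⟩
      have e1 : (60 * j + 40) * p = 60 * q + 40 * p := by rw [hq]; ring
      have e2 : (60 * j + 45) * p = 60 * q + 45 * p := by rw [hq]; ring
      have e3 : p * (3 * j + 2) = 3 * q + 2 * p := by rw [hq]; ring
      have e4 : p * (5 * j + 3) = 5 * q + 3 * p := by rw [hq]; ring
      have e5 : p * (4 * j + 3) = 4 * q + 3 * p := by rw [hq]; ring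
      rw [e1] at h1
      rw [e2] at h2
      rw [e3, e4, e5]
      refine ⟨by omega, by omega, by omega, ⟨2 * j + 1, by omega⟩, by omega⟩
  have h3 : 60 * n < 6045 * p := lt_of_lt_of_le h2 (Nat.mul_le_mul_right _ hv.1)
  have h4 : 9926 ≤ p := by omega
  refine ⟨hpp, by omega, by omega, ?_, hv.2⟩
  have h5 : 60 * n * 9926 ≤ 60 * n * p := Nat.mul_le_mul_left _ h4
  have h6 : 60 * n * p ≤ 6045 * p * p := Nat.mul_le_mul_right _ h3.le
  have h7 : 6045 * p * p = 6045 * (p * p) := by ring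
  rw [h7] at h6
  omega

end Pool.Agent.H930R2.Pi.T16
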